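import Pool.Agent.Helper482_OEC.Moments

/-!
The probability that an edge gets a colour.
-/

open scoped BigOperators
open Finset

namespace Helper482.OEC

variable {n Δ : ℕ} {D K : ℝ}

lemma pp_cases (w : Wts n Δ) (e : Sym2 (Fin n)) (c : Fin Δ) :
    pp D K w e c = 0 ∨ pp D K w e c = B w e c / D := by
  unfold pp
  split_ifs
  · exact Or.inl rfl
  · exact Or.inr rfl

lemma inv_S (hP : Par D K) (h : History n Δ) (hd : ∀ a ∈ h, ¬ a.1.IsDiag) (u : Fin n)
    (c : Fin Δ) : W D K h u c * (D - S D K h u c) ≤ D := by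
  induction h with
  | nil => simp [W, S]
  | cons a h ih =>
    obtain ⟨e, o⟩ := a
    have ih' := ih fun a ha => hd a (List.mem_cons_of_mem _ ha)
    have hD := hP.hD
    by_cases hu : u ∈ e
    · obtain ⟨v, huv, rfl⟩ := mem_split hu (hd _ List.mem_cons_self)
      simp only [W, S, inc_mk _ huv]
      unfold upd
      rw [if_pos hu]
      split_ifs with ho
      · linarith
      · have hw := W_bd hP h
        have hpos := one_sub_pp_pos hP hw s(u, v) c
        rw [div_mul_eq_mul_div, div_le_iff₀ hpos]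
        have h1 : 0 ≤ W D K h u c * W D K h v c := mul_nonneg (hw u c).1 (hw v c).1
        rcases pp_cases (D := D) (K := K) (W D K h) s(u, v) c with h0 | h0
        · rw [h0]; nlinarith
        · rw [h0, B_mk]
          have : D * (1 - W D K h u c * W D K h v c / D) = D - W D K h u c * W D K h v c := by
            field_simp
          rw [this]; nlinarith
    · simp only [W, S, inc_not _ hu, add_zero]
      unfold upd
      rw [if_neg hu]
      exact ih'

lemma blocked (hP : Par D K) (h : History n Δ) (hd : ∀ a ∈ h, ¬ a.1.IsDiag) (u v : Fin n)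
    (c : Fin Δ) (hb : K * (1 - W D K h u c * W D K h v c / D) < W D K h u c) :
    D - D / K < S D K h u c + W D K h v c := by
  by_contra hcon
  push Not at hcon
  have hD := hP.hD
  have hK : 0 < K := by linarith [hP.hK]
  have h1 := inv_S hP h hd u c
  have h2 : W D K h u c * (W D K h v c + D / K) ≤ W D K h u c * (D - S D K h u c) :=
    mul_le_mul_of_nonneg_left (by linarith) (W_bd hP h u c).1
  have h3 : W D K h u c * W D K h v c + W D K h u c * D / K ≤ D := by
    have : W D K h u c * (W D K h v c + D / K)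
        = W D K h u c * W D K h v c + W D K h u c * D / K := by ring
    linarith
  have h4 : W D K h u c ≤ K * (1 - W D K h u c * W D K h v c / D) := by
    have h5 : W D K h u c * D / K ≤ D - W D K h u c * W D K h v c := by linarith
    rw [div_le_iff₀ hK] at h5
    have h6 : K * (1 - W D K h u c * W D K h v c / D)
        = (D - W D K h u c * W D K h v c) * K / D := by field_simp
    rw [h6, le_div_iff₀ hD]
    exact h5
  linarith

/-- pointwise lower bound of the probability of getting a colour -/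
lemma pointwise (hP : Par D K) (h : History n Δ) (hd : ∀ a ∈ h, ¬ a.1.IsDiag) (u v : Fin n)
    (r du dv : ℝ) (hr : 0 < r) (hr2 : (Δ : ℝ) + r ≤ D - D / K) (hdu : du ≤ Δ)
    (hdv : dv ≤ Δ) :
    (∑ c, W D K h u c * W D K h v c) / D
      - K ^ 2 / (D * r ^ 2) * ∑ c, (S D K h u c + W D K h v c - du) ^ 2
      - K ^ 2 / (D * r ^ 2) * ∑ c, (S D K h v c + W D K h u c - dv) ^ 2
      - K ^ 2 * Δ / (D * r ^ 2) * (∑ c, W D K h u c * W D K h v c - Δ) ^ 2
      ≤ ∑ c, pp D K (W D K h) s(u, v) c := by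
  have hD := hP.hD
  have hK : 0 < K := by linarith [hP.hK]
  have hw := W_bd (D := D) (K := K) hP h
  have hc0 : 0 ≤ K ^ 2 / (D * r ^ 2) := by positivity
  have hsum1 : 0 ≤ K ^ 2 / (D * r ^ 2) * ∑ c, (S D K h u c + W D K h v c - du) ^ 2 :=
    mul_nonneg hc0 (Finset.sum_nonneg fun _ _ => sq_nonneg _)
  have hsum2 : 0 ≤ K ^ 2 / (D * r ^ 2) * ∑ c, (S D K h v c + W D K h u c - dv) ^ 2 :=
    mul_nonneg hc0 (Finset.sum_nonneg fun _ _ => sq_nonneg _)
  set N := ∑ c, W D K h u c * W D K h v c with hN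
  have hDr : (Δ : ℝ) + r ≤ D := by
    have : 0 < D / K := by positivity
    linarith
  have hN0 : 0 ≤ N := Finset.sum_nonneg fun c _ => mul_nonneg (hw u c).1 (hw v c).1
  have hNle : N ≤ K ^ 2 * Δ := by
    calc N ≤ ∑ c : Fin Δ, K ^ 2 := Finset.sum_le_sum fun c _ => B_le hP hw s(u, v) c
      _ = K ^ 2 * Δ := by simp [mul_comm]
  have hppn : ∀ c, 0 ≤ pp D K (W D K h) s(u, v) c := pp_nonneg hP hw s(u, v)
  by_cases hbad : D < N
  · have h1 : N / D ≤ K ^ 2 * Δ / (D * r ^ 2) * (N - Δ) ^ 2 := by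
      have h2 : r ^ 2 ≤ (N - Δ) ^ 2 := by
        apply pow_le_pow_left₀ hr.le; linarith
      calc N / D ≤ K ^ 2 * Δ / D := div_le_div_of_nonneg_right hNle hD.le
        _ = K ^ 2 * Δ / (D * r ^ 2) * r ^ 2 := by field_simp
        _ ≤ _ := mul_le_mul_of_nonneg_left h2 (by positivity)
    have h3 : 0 ≤ ∑ c, pp D K (W D K h) s(u, v) c := Finset.sum_nonneg fun c _ => hppn c
    linarith
  · have h1 : 0 ≤ K ^ 2 * Δ / (D * r ^ 2) * (N - Δ) ^ 2 := by positivity
    have hc : ∀ c, W D K h u c * W D K h v c / D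
        - K ^ 2 / (D * r ^ 2) * (S D K h u c + W D K h v c - du) ^ 2
        - K ^ 2 / (D * r ^ 2) * (S D K h v c + W D K h u c - dv) ^ 2
        ≤ pp D K (W D K h) s(u, v) c := by
      intro c
      have hB1 : W D K h u c * W D K h v c / D ≤ K ^ 2 / D :=
        div_le_div_of_nonneg_right (B_le hP hw s(u, v) c) hD.le
      have key : ∀ t : ℝ, r < t → K ^ 2 / D ≤ K ^ 2 / (D * r ^ 2) * t ^ 2 := by
        intro t ht
        have h2 : r ^ 2 ≤ t ^ 2 := pow_le_pow_left₀ hr.le ht.le 2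
        calc K ^ 2 / D = K ^ 2 / (D * r ^ 2) * r ^ 2 := by field_simp
          _ ≤ _ := mul_le_mul_of_nonneg_left h2 hc0
      have h5 : 0 ≤ K ^ 2 / (D * r ^ 2) * (S D K h u c + W D K h v c - du) ^ 2 := by positivity
      have h6 : 0 ≤ K ^ 2 / (D * r ^ 2) * (S D K h v c + W D K h u c - dv) ^ 2 := by positivity
      unfold pp
      split_ifs with hcond
      · rcases hcond with hcond | ⟨x, hx, hcond⟩
        · exact absurd hcond hbad
        · rw [Sym2.mem_iff] at hx
          rcases hx with rfl | rfl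
          · have h7 := blocked hP h hd x v c hcond
            have h8 := key (S D K h x c + W D K h v c - du) (by linarith)
            linarith
          · have h7 := blocked hP h hd x u c (by rw [mul_comm (W D K h x c)]; exact hcond)
            have h8 := key (S D K h x c + W D K h u c - dv) (by linarith)
            linarith
      · rw [B_mk]; linarith
    have hs := Finset.sum_le_sum fun c (_ : c ∈ Finset.univ) => hc c
    rw [Finset.sum_sub_distrib, Finset.sum_sub_distrib, ← Finset.sum_div, ← Finset.mul_sum,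
      ← Finset.mul_sum] at hs
    linarith

lemma map_nd {h : History n Δ} {es : List (Sym2 (Fin n))} (hh : h.map Prod.fst = es)
    (hd : ∀ e ∈ es, ¬ e.IsDiag) : ∀ a ∈ h, ¬ a.1.IsDiag := by
  intro a ha
  apply hd
  rw [← hh]
  exact List.mem_map_of_mem ha

/-- expected probability of getting a colour -/
lemma main_bound (hP : Par D K) (es : List (Sym2 (Fin n))) (u v : Fin n) (huv : u ≠ v)
    (hd : ∀ e ∈ es, ¬ e.IsDiag) (hes : (s(u, v) :: es).Nodup)
    (r : ℝ) (hr : 0 < r) (hr2 : (Δ : ℝ) + r ≤ D - D / K)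
    (hdu : dg (s(u, v) :: es) u ≤ Δ) (hdv : dg (s(u, v) :: es) v ≤ Δ) :
    (Δ : ℝ) / D - 7 * K ^ 4 * Δ / r ^ 2
      ≤ Ex D K es (fun h : History n Δ => ∑ c, pp D K (W D K h) s(u, v) c) := by
  have hD := hP.hD
  have hK : 0 < K := by linarith [hP.hK]
  have hd' : ∀ e ∈ s(u, v) :: es, ¬ e.IsDiag := by
    intro e he
    rcases List.mem_cons.mp he with rfl | he
    · simpa using huv
    · exact hd e he
  have hDr : (Δ : ℝ) + r ≤ D := by
    have : 0 < D / K := by positivity
    linarith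
  have hDΔ : (Δ : ℝ) ≤ D := by linarith
  have hes' := hes
  rw [List.nodup_cons] at hes
  have huv' : ∀ e ∈ es, ¬ (u ∈ e ∧ v ∈ e) := by
    intro e he h1
    rw [(Sym2.mem_and_mem_iff huv).mp h1] at he
    exact hes.1 he
  have hVu : ∀ c : Fin Δ, Ex D K es (fun h => (S D K h u c + W D K h v c
      - dg (s(u, v) :: es) u) ^ 2) ≤ 3 * K ^ 2 * Δ := by
    intro c
    have := Var_S hP (s(u, v) :: es) hd' hes' u c hdu hDΔ
    rwa [Ex_cons_indep s(u, v) es _ (fun h => (S D K h u c + W D K h v c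
      - dg (s(u, v) :: es) u) ^ 2) (fun o h => by simp only [S, inc_mk _ huv])] at this
  have hVv : ∀ c : Fin Δ, Ex D K es (fun h => (S D K h v c + W D K h u c
      - dg (s(u, v) :: es) v) ^ 2) ≤ 3 * K ^ 2 * Δ := by
    intro c
    have := Var_S hP (s(u, v) :: es) hd' hes' v c hdv hDΔ
    rwa [Ex_cons_indep s(u, v) es _ (fun h => (S D K h v c + W D K h u c
      - dg (s(u, v) :: es) v) ^ 2) (fun o h => by
        simp only [S]
        rw [Sym2.eq_swap, inc_mk _ huv.symm])] at this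
  have hVN := Var_N (Δ := Δ) hP es u v huv'
  have h1 : Ex D K es (fun h => (∑ c : Fin Δ, W D K h u c * W D K h v c) / D
      - K ^ 2 / (D * r ^ 2) * ∑ c, (S D K h u c + W D K h v c - dg (s(u, v) :: es) u) ^ 2
      - K ^ 2 / (D * r ^ 2) * ∑ c, (S D K h v c + W D K h u c - dg (s(u, v) :: es) v) ^ 2
      - K ^ 2 * Δ / (D * r ^ 2) * (∑ c, W D K h u c * W D K h v c - Δ) ^ 2)
      ≤ Ex D K es (fun h : History n Δ => ∑ c, pp D K (W D K h) s(u, v) c) := by
    refine Ex_mono' hP es _ _ fun h hh => ?_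
    exact pointwise hP h (map_nd hh hd) u v r _ _ hr hr2 (by exact_mod_cast hdu)
      (by exact_mod_cast hdv)
  refine le_trans ?_ h1
  rw [Ex_sub, Ex_sub, Ex_sub, Ex_smul, Ex_smul, Ex_smul, Ex_sum, Ex_sum]
  have h2 : Ex D K es (fun h : History n Δ => (∑ c, W D K h u c * W D K h v c) / D)
      = Δ / D := by
    have : (fun h : History n Δ => (∑ c, W D K h u c * W D K h v c) / D)
        = fun h => (1 / D) * ∑ c, W D K h u c * W D K h v c := by ext h; ring
    rw [this, Ex_smul, Ex_N1 hP es u v huv']; ring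
  rw [h2]
  have hsu : ∑ c : Fin Δ, Ex D K es (fun h => (S D K h u c + W D K h v c
      - dg (s(u, v) :: es) u) ^ 2) ≤ Δ * (3 * K ^ 2 * Δ) := by
    calc _ ≤ ∑ c : Fin Δ, 3 * K ^ 2 * (Δ : ℝ) := Finset.sum_le_sum fun c _ => hVu c
      _ = _ := by simp
  have hsv : ∑ c : Fin Δ, Ex D K es (fun h => (S D K h v c + W D K h u c
      - dg (s(u, v) :: es) v) ^ 2) ≤ Δ * (3 * K ^ 2 * Δ) := by
    calc _ ≤ ∑ c : Fin Δ, 3 * K ^ 2 * (Δ : ℝ) := Finset.sum_le_sum fun c _ => hVv c
      _ = _ := by simp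
  have hc0 : 0 ≤ K ^ 2 / (D * r ^ 2) := by positivity
  have hc1 : 0 ≤ K ^ 2 * Δ / (D * r ^ 2) := by positivity
  have hb1 := mul_le_mul_of_nonneg_left hsu hc0
  have hb2 := mul_le_mul_of_nonneg_left hsv hc0
  have hb3 := mul_le_mul_of_nonneg_left hVN hc1
  have hfin1 : K ^ 2 / (D * r ^ 2) * (Δ * (3 * K ^ 2 * Δ)) ≤ 3 * K ^ 4 * Δ / r ^ 2 := by
    have : K ^ 2 / (D * r ^ 2) * (Δ * (3 * K ^ 2 * Δ)) = (3 * K ^ 4 * Δ / r ^ 2) * (Δ / D) := by
      field_simp
    rw [this]
    have h4 : (Δ : ℝ) / D ≤ 1 := by rw [div_le_one hD]; exact hDΔ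
    calc _ ≤ (3 * K ^ 4 * Δ / r ^ 2) * 1 := mul_le_mul_of_nonneg_left h4 (by positivity)
      _ = _ := mul_one _
  have hfin2 : K ^ 2 * Δ / (D * r ^ 2) * (K ^ 2 * Δ) ≤ K ^ 4 * Δ / r ^ 2 := by
    have : K ^ 2 * Δ / (D * r ^ 2) * (K ^ 2 * Δ) = (K ^ 4 * Δ / r ^ 2) * (Δ / D) := by
      field_simp
    rw [this]
    have h4 : (Δ : ℝ) / D ≤ 1 := by rw [div_le_one hD]; exact hDΔ
    calc _ ≤ (K ^ 4 * Δ / r ^ 2) * 1 := mul_le_mul_of_nonneg_left h4 (by positivity)
      _ = _ := mul_one _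
  have hsplit : 7 * K ^ 4 * Δ / r ^ 2
      = 3 * K ^ 4 * Δ / r ^ 2 + 3 * K ^ 4 * Δ / r ^ 2 + K ^ 4 * Δ / r ^ 2 := by ring
  rw [hsplit]
  linarith

end Helper482.OEC
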