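import Pool.Agent.Helper482_OEC.Core

/-!
Moments of the weights along the run.
-/

open scoped BigOperators
open Finset

namespace Helper482.OEC

variable {n Δ : ℕ} {D K : ℝ}

lemma Ex_W1 (hP : Par D K) (es : List (Sym2 (Fin n))) (x : Fin n) (c : Fin Δ) :
    Ex D K es (fun h => W D K h x c) = 1 := by
  induction es with
  | nil => rfl
  | cons e es ih =>
    simp only [Ex]
    rw [← ih]
    congr 1
    ext h
    exact step_one hP (W_bd hP h) e x c

lemma Ex_W2 (hP : Par D K) (es : List (Sym2 (Fin n))) (x y : Fin n) (c : Fin Δ)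
    (hxy : ∀ e ∈ es, ¬ (x ∈ e ∧ y ∈ e)) :
    Ex D K es (fun h => W D K h x c * W D K h y c) = 1 := by
  induction es with
  | nil => simp [Ex, W]
  | cons e es ih =>
    simp only [Ex]
    rw [← ih fun e he => hxy e (List.mem_cons_of_mem _ he)]
    congr 1
    ext h
    exact step_two hP (W_bd hP h) e x y (hxy e List.mem_cons_self) c

lemma Ex_W4 (hP : Par D K) (es : List (Sym2 (Fin n))) (x y : Fin n) {c c' : Fin Δ} (hc : c ≠ c')
    (hxy : ∀ e ∈ es, ¬ (x ∈ e ∧ y ∈ e)) :
    Ex D K es (fun h => W D K h x c * W D K h y c * (W D K h x c' * W D K h y c')) ≤ 1 := by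
  induction es with
  | nil => simp [Ex, W]
  | cons e es ih =>
    simp only [Ex]
    refine le_trans ?_ (ih fun e he => hxy e (List.mem_cons_of_mem _ he))
    refine Ex_mono hP es _ _ fun h => ?_
    exact step_four hP (W_bd hP h) e x y (hxy e List.mem_cons_self) hc

lemma one_sub_kap_pos (hP : Par D K) : 0 < 1 - K ^ 2 / D := by linarith [kap_le hP]

lemma Ex_W2' (hP : Par D K) (es : List (Sym2 (Fin n))) (hes : es.Nodup) (x y : Fin n) (hne : x ≠ y)
    (c : Fin Δ) :
    (1 - K ^ 2 / D) * Ex D K es (fun h => W D K h x c * W D K h y c) ≤ 1 := by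
  induction es with
  | nil =>
    simp only [Ex, W, mul_one]
    linarith [kap_nonneg hP]
  | cons e es ih =>
    rw [List.nodup_cons] at hes
    by_cases he : x ∈ e ∧ y ∈ e
    · have he' : e = s(x, y) := (Sym2.mem_and_mem_iff hne).mp he
      have h1 : ∀ e' ∈ es, ¬ (x ∈ e' ∧ y ∈ e') := by
        intro e' he1 he2
        have : e' = s(x, y) := (Sym2.mem_and_mem_iff hne).mp he2
        rw [this, ← he'] at he1
        exact hes.1 he1
      have h2 := Ex_W2 hP es x y c h1
      simp only [Ex]
      rw [← Ex_smul]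
      calc _ ≤ Ex D K es (fun h => W D K h x c * W D K h y c) := by
            refine Ex_mono hP es _ _ fun h => ?_
            exact step_two' hP (W_bd hP h) e x y c
        _ ≤ 1 := h2.le
    · have h1 : Ex D K (e :: es) (fun h => W D K h x c * W D K h y c)
          = Ex D K es (fun h => W D K h x c * W D K h y c) := by
        simp only [Ex]
        congr 1
        ext h
        exact step_two hP (W_bd hP h) e x y he c
      rw [h1]
      exact ih hes.2

open Classical in
/-- the weight of the other endpoint, `0` if `u` is not on the edge -/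
noncomputable def inc (w : Wts n Δ) (e : Sym2 (Fin n)) (u : Fin n) (c : Fin Δ) : ℝ :=
  if u ∈ e then ∑ x ∈ Finset.univ.filter (fun x => x ≠ u ∧ x ∈ e), w x c else 0

lemma inc_mk (w : Wts n Δ) {u v : Fin n} (huv : u ≠ v) (c : Fin Δ) :
    inc w s(u, v) u c = w v c := by
  classical
  unfold inc
  rw [if_pos (Sym2.mem_mk_left u v)]
  have : Finset.univ.filter (fun x => x ≠ u ∧ x ∈ s(u, v)) = {v} := by
    ext x
    simp only [Finset.mem_filter, Finset.mem_univ, true_and, Sym2.mem_iff, Finset.mem_singleton]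
    constructor
    · rintro ⟨h1, h2 | h2⟩
      · exact absurd h2 h1
      · exact h2
    · rintro rfl
      exact ⟨huv.symm, Or.inr rfl⟩
  rw [this, Finset.sum_singleton]

lemma inc_not (w : Wts n Δ) {u : Fin n} {e : Sym2 (Fin n)} (hu : u ∉ e) (c : Fin Δ) :
    inc w e u c = 0 := by
  unfold inc; rw [if_neg hu]

variable (D K)

/-- sum of the weights of the neighbours at the arrival of the edges -/
noncomputable def S : History n Δ → Fin n → Fin Δ → ℝ
  | [] => fun _ _ => 0
  | (e, _) :: h => fun u c => S h u c + inc (W D K h) e u c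

variable {D K}

open Classical in
/-- number of edges at `u` -/
noncomputable def dg : List (Sym2 (Fin n)) → Fin n → ℕ
  | [] => fun _ => 0
  | e :: es => fun u => dg es u + if u ∈ e then 1 else 0

lemma mem_split {u : Fin n} {e : Sym2 (Fin n)} (hu : u ∈ e) (he : ¬ e.IsDiag) :
    ∃ v, u ≠ v ∧ e = s(u, v) := by
  obtain ⟨v, rfl⟩ := hu
  exact ⟨v, fun h => he (by simp [h]), rfl⟩

lemma Ex_cons_indep (e : Sym2 (Fin n)) (es : List (Sym2 (Fin n))) (f : History n Δ → ℝ)
    (g : History n Δ → ℝ) (hfg : ∀ o h, f ((e, o) :: h) = g h) :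
    Ex D K (e :: es) f = Ex D K es g := by
  simp only [Ex]
  congr 1
  ext h
  simp only [hfg]
  rw [← Finset.sum_mul, wt_sum, one_mul]

lemma Ex_S1 (hP : Par D K) (es : List (Sym2 (Fin n))) (hd : ∀ e ∈ es, ¬ e.IsDiag) (u : Fin n)
    (c : Fin Δ) : Ex D K es (fun h => S D K h u c) = dg es u := by
  induction es with
  | nil => simp [Ex, S, dg]
  | cons e es ih =>
    have ih' := ih fun e he => hd e (List.mem_cons_of_mem _ he)
    rw [Ex_cons_indep e es (fun h => S D K h u c) (fun h => S D K h u c + inc (W D K h) e u c)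
      (fun o h => rfl), Ex_add, ih']
    by_cases hu : u ∈ e
    · obtain ⟨v, huv, rfl⟩ := mem_split hu (hd e List.mem_cons_self)
      simp only [inc_mk _ huv, Ex_W1 hP, dg, if_pos hu]
      push_cast; ring
    · simp only [inc_not _ hu, Ex_const, dg, if_neg hu]
      push_cast; ring

lemma Ex_SW (hP : Par D K) (es : List (Sym2 (Fin n))) (hd : ∀ e ∈ es, ¬ e.IsDiag)
    (hes : es.Nodup) (u x : Fin n) (hux : s(u, x) ∉ es) (c : Fin Δ) :
    (1 - K ^ 2 / D) * Ex D K es (fun h => S D K h u c * W D K h x c) ≤ dg es u := by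
  induction es with
  | nil => simp [Ex, S, dg]
  | cons e es ih =>
    have hd' : ∀ e ∈ es, ¬ e.IsDiag := fun e he => hd e (List.mem_cons_of_mem _ he)
    rw [List.nodup_cons] at hes
    have hux' : s(u, x) ∉ es := fun h => hux (List.mem_cons_of_mem _ h)
    have ih' := ih hd' hes.2 hux'
    by_cases hu : u ∈ e
    · obtain ⟨v, huv, rfl⟩ := mem_split hu (hd e List.mem_cons_self)
      have hvx : v ≠ x := by
        rintro rfl
        exact hux List.mem_cons_self
      have hxe : ∀ o h, S D K ((s(u, v), o) :: h) u c * W D K ((s(u, v), o) :: h) x c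
          = (S D K h u c + W D K h v c) * upd D K (W D K h) s(u, v) o x c := by
        intro o h
        simp only [S, W, inc_mk _ huv]
      have h2 : Ex D K (s(u, v) :: es) (fun h => S D K h u c * W D K h x c)
          = Ex D K es (fun h => (S D K h u c + W D K h v c) * W D K h x c) := by
        simp only [Ex]
        congr 1
        ext h
        simp only [hxe]
        have : ∀ o, wt D K (W D K h) s(u, v) o * ((S D K h u c + W D K h v c)
            * upd D K (W D K h) s(u, v) o x c) = (S D K h u c + W D K h v c)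
            * (wt D K (W D K h) s(u, v) o * upd D K (W D K h) s(u, v) o x c) := fun o => by ring
        rw [Finset.sum_congr rfl fun o _ => this o, ← Finset.mul_sum, step_one hP (W_bd hP h)]
      rw [h2]
      have h3 : (fun h : History n Δ => (S D K h u c + W D K h v c) * W D K h x c)
          = fun h => S D K h u c * W D K h x c + W D K h v c * W D K h x c := by
        ext h; ring
      rw [h3, Ex_add, mul_add]
      have h4 := Ex_W2' hP es hes.2 v x hvx c
      simp only [dg, if_pos hu]
      push_cast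
      linarith
    · have h2 : Ex D K (e :: es) (fun h => S D K h u c * W D K h x c)
          = Ex D K es (fun h => S D K h u c * W D K h x c) := by
        simp only [Ex]
        congr 1
        ext h
        have : ∀ o, wt D K (W D K h) e o * (S D K ((e, o) :: h) u c * W D K ((e, o) :: h) x c)
            = S D K h u c * (wt D K (W D K h) e o * upd D K (W D K h) e o x c) := by
          intro o
          simp only [S, W, inc_not _ hu]
          ring
        rw [Finset.sum_congr rfl fun o _ => this o, ← Finset.mul_sum, step_one hP (W_bd hP h)]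
      rw [h2]
      simp only [dg, if_neg hu]
      simpa using ih'

lemma Ex_Wsq (hP : Par D K) (es : List (Sym2 (Fin n))) (x : Fin n) (c : Fin Δ) :
    Ex D K es (fun h => W D K h x c ^ 2) ≤ K := by
  calc Ex D K es (fun h => W D K h x c ^ 2) ≤ Ex D K es (fun h => K * W D K h x c) := by
        refine Ex_mono hP es _ _ fun h => ?_
        rw [sq]
        exact mul_le_mul_of_nonneg_right (W_bd hP h x c).2 (W_bd hP h x c).1
    _ = K := by rw [Ex_smul, Ex_W1 hP, mul_one]

lemma Ex_S2 (hP : Par D K) (es : List (Sym2 (Fin n))) (hd : ∀ e ∈ es, ¬ e.IsDiag)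
    (hes : es.Nodup) (u : Fin n) (c : Fin Δ) :
    (1 - K ^ 2 / D) * Ex D K es (fun h => S D K h u c ^ 2)
      ≤ (1 - K ^ 2 / D) * (dg es u * K) + dg es u * (dg es u - 1) := by
  induction es with
  | nil => simp [Ex, S, dg]
  | cons e es ih =>
    have hd' : ∀ e ∈ es, ¬ e.IsDiag := fun e he => hd e (List.mem_cons_of_mem _ he)
    rw [List.nodup_cons] at hes
    have ih' := ih hd' hes.2
    rw [Ex_cons_indep e es (fun h => S D K h u c ^ 2)
      (fun h => (S D K h u c + inc (W D K h) e u c) ^ 2) (fun o h => rfl)]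
    by_cases hu : u ∈ e
    · obtain ⟨v, huv, rfl⟩ := mem_split hu (hd e List.mem_cons_self)
      have h3 : (fun h : History n Δ => (S D K h u c + inc (W D K h) s(u, v) u c) ^ 2)
          = fun h => (S D K h u c ^ 2 + 2 * (S D K h u c * W D K h v c)) + W D K h v c ^ 2 := by
        ext h
        rw [inc_mk _ huv]; ring
      rw [h3, Ex_add, Ex_add, Ex_smul]
      have h4 := Ex_SW hP es hd' hes.2 u v hes.1 c
      have h5 := mul_le_mul_of_nonneg_left (Ex_Wsq hP es v c) (one_sub_kap_pos hP).le
      simp only [dg, if_pos hu]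
      push_cast
      nlinarith
    · have h3 : (fun h : History n Δ => (S D K h u c + inc (W D K h) e u c) ^ 2)
          = fun h => S D K h u c ^ 2 := by
        ext h
        rw [inc_not _ hu]; ring
      rw [h3]
      simp only [dg, if_neg hu]
      simpa using ih'

lemma Var_S (hP : Par D K) (es : List (Sym2 (Fin n))) (hd : ∀ e ∈ es, ¬ e.IsDiag)
    (hes : es.Nodup) (u : Fin n) (c : Fin Δ) (hdeg : dg es u ≤ Δ) (hDΔ : (Δ : ℝ) ≤ D) :
    Ex D K es (fun h => (S D K h u c - dg es u) ^ 2) ≤ 3 * K ^ 2 * Δ := by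
  have h1 : (fun h : History n Δ => (S D K h u c - dg es u) ^ 2)
      = fun h => (S D K h u c ^ 2 + (-2 * dg es u) * S D K h u c) + (dg es u : ℝ) ^ 2 := by
    ext h; ring
  rw [h1, Ex_add, Ex_add, Ex_smul, Ex_const, Ex_S1 hP es hd]
  have h2 := Ex_S2 hP es hd hes u c
  set d : ℝ := (dg es u : ℝ) with hdd
  set E2 := Ex D K es (fun h => S D K h u c ^ 2)
  set κ := K ^ 2 / D with hκ
  have hk0 : 0 ≤ κ := kap_nonneg hP
  have hk1 : κ ≤ 1 / 2 := kap_le hP
  have hd0 : 0 ≤ d := Nat.cast_nonneg _
  have hdΔ : d ≤ Δ := by rw [hdd]; exact_mod_cast hdeg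
  have hK := hP.hK
  have hκD : κ * D = K ^ 2 := by rw [hκ]; field_simp [hP.hD.ne']
  -- E2 - d^2 ≤ d K + 2 κ d^2
  have h3 : E2 ≤ d * K + (d * (d - 1)) / (1 - κ) := by
    have h4 : 0 < 1 - κ := by linarith
    rw [← sub_nonneg]
    have : (d * K + (d * (d - 1)) / (1 - κ) - E2)
        = ((1 - κ) * (d * K) + d * (d - 1) - (1 - κ) * E2) / (1 - κ) := by
      field_simp
    rw [this]
    exact div_nonneg (by linarith) h4.le
  have h5 : (d * (d - 1)) / (1 - κ) ≤ d ^ 2 * (1 + 2 * κ) := by
    have h4 : 0 < 1 - κ := by linarith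
    rw [div_le_iff₀ h4]
    have : (1 + 2 * κ) * (1 - κ) ≥ 1 := by nlinarith
    nlinarith [sq_nonneg d, mul_nonneg (sq_nonneg d) (by linarith : (0:ℝ) ≤ (1 + 2 * κ) * (1 - κ) - 1)]
  have h6 : κ * d ^ 2 ≤ K ^ 2 * d := by
    calc κ * d ^ 2 = κ * d * d := by ring
      _ ≤ κ * D * d := by
        have : κ * d ≤ κ * D := mul_le_mul_of_nonneg_left (hdΔ.trans hDΔ) hk0
        exact mul_le_mul_of_nonneg_right this hd0
      _ = K ^ 2 * d := by rw [hκD]
  have h7 : d * K ≤ d * K ^ 2 := by
    apply mul_le_mul_of_nonneg_left _ hd0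
    nlinarith
  have h8 : K ^ 2 * d ≤ K ^ 2 * Δ := mul_le_mul_of_nonneg_left hdΔ (by positivity)
  nlinarith

lemma Ex_N1 (hP : Par D K) (es : List (Sym2 (Fin n))) (u v : Fin n)
    (huv : ∀ e ∈ es, ¬ (u ∈ e ∧ v ∈ e)) :
    Ex D K es (fun h : History n Δ => ∑ c, W D K h u c * W D K h v c) = Δ := by
  rw [Ex_sum]
  simp only [Ex_W2 hP es u v _ huv]
  simp

lemma Var_N (hP : Par D K) (es : List (Sym2 (Fin n))) (u v : Fin n)
    (huv : ∀ e ∈ es, ¬ (u ∈ e ∧ v ∈ e)) :
    Ex D K es (fun h : History n Δ => (∑ c, W D K h u c * W D K h v c - Δ) ^ 2)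
      ≤ K ^ 2 * Δ := by
  classical
  have h1 : (fun h : History n Δ => (∑ c, W D K h u c * W D K h v c - Δ) ^ 2)
      = fun h => ((∑ c, ∑ c', W D K h u c * W D K h v c * (W D K h u c' * W D K h v c'))
        + (-2 * (Δ : ℝ)) * ∑ c, W D K h u c * W D K h v c) + (Δ : ℝ) ^ 2 := by
    ext h
    have : (∑ c, ∑ c', W D K h u c * W D K h v c * (W D K h u c' * W D K h v c'))
        = (∑ c, W D K h u c * W D K h v c) ^ 2 := by
      rw [sq, Finset.sum_mul_sum]
    rw [this]; ring
  rw [h1, Ex_add, Ex_add, Ex_smul, Ex_const, Ex_N1 hP es u v huv, Ex_sum]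
  have h2 : ∀ c : Fin Δ, Ex D K es (fun h => ∑ c', W D K h u c * W D K h v c
      * (W D K h u c' * W D K h v c')) ≤ K ^ 2 + (Δ - 1) := by
    intro c
    rw [Ex_sum, ← Finset.add_sum_erase _ _ (Finset.mem_univ c)]
    refine add_le_add ?_ ?_
    · calc Ex D K es (fun h => W D K h u c * W D K h v c * (W D K h u c * W D K h v c))
          ≤ Ex D K es (fun h => K ^ 2 * (W D K h u c * W D K h v c)) := by
            refine Ex_mono hP es _ _ fun h => ?_
            exact mul_le_mul_of_nonneg_right (B_le hP (W_bd hP h) s(u, v) c)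
              (B_nonneg (W_bd hP h) s(u, v) c)
        _ = K ^ 2 := by rw [Ex_smul, Ex_W2 hP es u v c huv, mul_one]
    · calc _ ≤ ∑ c' ∈ Finset.univ.erase c, (1 : ℝ) :=
            Finset.sum_le_sum fun c' hc' =>
              Ex_W4 hP es u v (Finset.ne_of_mem_erase hc').symm huv
        _ = (Δ : ℝ) - 1 := by
            rw [Finset.sum_const, Finset.card_erase_of_mem (Finset.mem_univ c), Finset.card_univ,
              Fintype.card_fin, nsmul_eq_mul, mul_one]
            have : 1 ≤ Δ := by
              have := c.2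
              omega
            push_cast [this]
            ring
  have h3 : ∑ c : Fin Δ, Ex D K es (fun h => ∑ c', W D K h u c * W D K h v c
      * (W D K h u c' * W D K h v c')) ≤ Δ * (K ^ 2 + (Δ - 1)) := by
    calc _ ≤ ∑ c : Fin Δ, (K ^ 2 + ((Δ : ℝ) - 1)) := Finset.sum_le_sum fun c _ => h2 c
      _ = _ := by simp; ring
  have h4 : (0 : ℝ) ≤ Δ := Nat.cast_nonneg _
  nlinarith

end Helper482.OEC
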